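import Pool.Agent.R650.Lip02

/-!
# `C^{k,Lip}` groups versus `C^{k+1}` groups

Full (positive) answer to question Q1 of problem MP_02cf79_al for every `k ≥ 1` and for both
manifolds, with one and the same group, and with a non-trivial element which is killed by every
homomorphism to the groups of `C^{k+1}` diffeomorphisms.

The definitions are in `Pool/Agent/W331/CR/Defs.lean` and `Pool/Agent/W331/CR/Stm2.lean`:

* `DiffI r`: the orientation preserving `C^r` diffeomorphisms of the interval `[0,1]` (a subgroup of
  the group of the order automorphisms of `[0,1]`, with one-sided derivatives at the ends);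
* `DiffS r`: the orientation preserving `C^r` diffeomorphisms of the circle `ℝ/ℤ`;
* `LipI k`, `LipS k`: those of class `C^k` whose `k`-th derivative is Lipschitz.
-/

set_option autoImplicit false

namespace Pool.Agent.Results.MP_02cf79_al.KilledElement

open Set Function
open scoped ContDiff
open Pool.Agent.W331.CR (DiffI DiffS LipI LipS)

/-- For every `k ≥ 1` there are a finitely generated group `G` and an element `y ≠ 1` of `G` such
that

* `G` embeds into the orientation preserving `C^{k,Lip}` diffeomorphisms of `[0,1]`, and into those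
  of the circle;
* every homomorphism from `G` to the orientation preserving `C^{k+1}` diffeomorphisms of `[0,1]` or
  of the circle sends `y` to `1` (so it is not injective). -/
theorem result (k : ℕ) (hk : 1 ≤ k) : ∃ (G : Type) (_ : Group G), Group.FG G ∧
    (∃ φ : G →* (Icc (0:ℝ) 1 ≃o Icc (0:ℝ) 1), Injective φ ∧ ∀ g, φ g ∈ LipI k) ∧
    (∃ φ : G →* Equiv.Perm (AddCircle (1:ℝ)), Injective φ ∧ ∀ g, φ g ∈ LipS k) ∧
    ∃ y : G, y ≠ 1 ∧ (∀ φ : G →* DiffI (k + 1 : ℕ), φ y = 1) ∧
      ∀ φ : G →* DiffS (k + 1 : ℕ), φ y = 1 :=
  Pool.Agent.R650.Lip02.main k hk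

end Pool.Agent.Results.MP_02cf79_al.KilledElement
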